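import Pool.Agent.Helper48.V10.Ell
import Pool.Agent.Helper48.V9.Fg
import Pool.Agent.Helper48.V9.Free
import Pool.Agent.Helper48.V9.Power
import Pool.Agent.Helper48.V9.Weighted
import Pool.Agent.Helper73.SS.CoverEx
import Pool.Agent.Helper35.GE.Tate

/-!
# The generalized Tate conjecture for divisors on elliptic surfaces and abelian covers of the plane

Let `Ω` be an algebraic closure of a number field or of a finite field, and `K` the function field of
a surface over `Ω` with the following property (`IsCover`): `K` is a finite abelian extension of a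
field `R`, and for every intermediate field `M` with a cyclic Galois group `Gal(M / R)` the conjecture
is known for `M`, or one of the following three conditions holds.

(1) `IsTwist`: `M = B(w)`, `w ^ n ∈ B`, `n = [M : B]`, for the function field `B` of some surface,
`R ⊆ B ⊆ M` (for example `B = R`), and for some `a`, `b` the threefold
`v ^ a * (1 - v) ^ b = (s * w) ^ n` over `B` is uniruled, where `n` and `gcd(a, b)` are relatively
prime and `a`, `b`, `a + b` are not multiples of `n`. It is the quotient by the cyclic group of the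
product of the surface with the curve `u ^ n = v ^ a * (1 - v) ^ b`.

(2) `IsWild`: `p > 0` is the characteristic, `M = B(w)`, `w ^ p - w ∈ B`, `p = [M : B]`, for the
function field `B` of some surface, `R ⊆ B ⊆ M`, and the threefold `v ^ p - v = s ^ 2 - (w ^ p - w)`
over `B` (`s ^ 3` in place of `s ^ 2` for `p = 2`) is uniruled.

(3) `IsCurve`: `M = Ω(x, y, w)`, `R ⊆ Ω(x, y)`, `n = [M : Ω(x, y)]`, and
`w ^ n = f₁(x, y) ^ e₁ * ⋯ * fᵣ(x, y) ^ eᵣ`, branched along a curve in the plane, or in the weighted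
plane `P(a, b, 1)`, with components of the degrees `dᵢ`, where

* either `n ≤ 10` for the plane, `n ≤ 6` for the weighted planes, and for every character of
  `Gal(M / Ω(x, y))` of order greater than two (and for the character of order two if `n = 2`)
  `h ^ {2, 0}` or `h ^ {0, 2}` is zero, if the curve has only nodes (for other singularities the
  Hodge numbers are smaller); this is so for all plane curves of degree at most five;
* or `n` is arbitrary, there are at most three components in the plane, and the degree of the curve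
  is at most four, or is five and there is at most one line.

The weighted planes `P(1, m, 1)` are birational to the ruled surfaces `F_m`.

Let `X` be a surface over a finite extension of the given field which is dominated over `Ω` by a
surface with the function field `K`: a subrepresentation of the second cohomology of `X` which
becomes unipotent after a twist and a restriction to an open subgroup is contained in the span of the
classes of the curves. No condition on the singularities of the curves is imposed.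

Examples of `IsCover` (proved below):

* `elliptic_power`: all elliptic surfaces `y ^ 2 = x ^ 3 + A(w ^ n) * x + B(w ^ n)`, `deg A ≤ 2`,
  `deg B ≤ 3`, more generally `y ^ 2 + a₁ * x * y + a₃ * y = x ^ 3 + a₂ * x ^ 2 + a₄ * x + a₆`, where `aᵢ`
  is a polynomial in `w ^ n` of degree at most `i / 2`, for every `n` which is not zero in `Ω`. The
  geometric genus is `⌈n / 2⌉ - 1`, there are five moduli, and the eigenspaces of the second
  cohomology have dimension at most six and `h ^ {2, 0} + h ^ {0, 2} ≤ 1`. For a finite field `k` this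
  is the conjecture of Birch and Swinnerton-Dyer for all elliptic curves of this form over `k(w)`,
  that is, for an elliptic curve over `k(t)` with `deg aᵢ ≤ i / 2` over all the fields `k(t ^ (1 / n))`.
  (For `n ≤ 4` these are rational and K3 surfaces; Ulmer and Berger proved it for surfaces dominated
  by products of curves.) The proof: `w ^ n = v * (1 - v) / s ^ n` makes the threefold a family of
  rational elliptic surfaces over the `s`-line;
* `elliptic_additive`: the same in characteristic `p > 0` for polynomials `aᵢ` in `L(w)`, for every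
  separable additive polynomial `L(w) = l₀ * w + l₁ * w ^ p + ⋯ + l_e * w ^ p ^ e`, for example for
  `L(w) = w ^ q - w`, `q` any power of `p`. The degree of `aᵢ` is at most `5 * i / 6` if `p ≤ 3` (so
  `a₂`, `a₃`, `a₄`, `a₆` have degrees at most `1`, `2`, `3`, `5`), `7 * i / 10` if `p = 5`, and
  `i * (p + 2) / (2 * p)` if `p > 3`. So the conjecture of Birch and Swinnerton-Dyer holds for an
  elliptic curve over `k(t)` with such coefficients over all the fields `k(w)`, `t = L(w)`. The fields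
  `M ≠ R` are `R(w')`, `w' ^ p - w' = c * L(w)`, `c ∈ Ω`, the geometric genus is in general
  `⌈5 * q / 6⌉ - 1` for `p ≤ 3`, `deg L = q`, the eigenspaces have dimension at most ten. (An inseparable
  additive polynomial is a power `L₁(w) ^ p ^ j` for a separable `L₁`; then `K` is contained in a field
  of this kind, the one for `L₁` and the `p ^ j`-th roots of `x`, `y` and of the coefficients of `aᵢ`);
* `elliptic_power_K3`: the degree of `aᵢ` is at most `i * (1 + ⌊n / 2⌋) / n`. For `n = 4` the surfaces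
  `y ^ 2 = x ^ 3 + A(w ^ 4) * x + B(w ^ 4)`, `deg A ≤ 3`, `deg B ≤ 4`, of geometric genus two, and for
  `n = 6` the surfaces `y ^ 2 = x ^ 3 + A(w ^ 6) * x + B(w ^ 6)`, `deg A ≤ 2`, `deg B ≤ 4`, of geometric
  genus three. For even `n` the conjecture for the K3 surface with the coordinate `w ^ (n / 2)` is a
  hypothesis (it is a theorem);
* `double_power` and `double_additive`: double planes `y ^ 2 = G(x, w ^ n) * y + F(x, w ^ n)` and
  `y ^ 2 = G(x, L(w)) * y + F(x, L(w))`, where for the weights `a`, `1` of `x`, `w` (`a`, `d` of `x`,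
  `L(w)`) the degrees of `G` and `F` are at most `S` and `2 * S`, `S = a + 1 + ⌊n / 2⌋`
  (`S = a + ⌊d / 2⌋ + ⌊d / P⌋`, `P = max p 3`); for example `y ^ 2 = w ^ 8 + w ^ 4 * f(x) + g(x)`,
  `deg f ≤ 4`, `deg g ≤ 8`;
* `power` and `additive`: `F(x, y, w ^ n) = 0` and `F(x, y, L(w)) = 0`, where the degree of `F` for some
  weights `a`, `b`, `2 * c` of the variables is at most `a + b + c`;
* `plane` and `plane_additive`: `K` is generated by `x`, `y` and the roots of the equations
  `w_i ^ p - w_i = f_i(x, y) / g(x, y) ^ 2`, and for some weights `a, b ≥ 0` of `x, y`, not both zero,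
  and `P = max p 3`, `deg g ≤ a + b` and `(P - 2) * deg f_i + 4 * deg g ≤ 2 * P * (a + b)`; or `K` is
  generated by `x`, `y` and a root of `L(w) = f(x, y) / g(x, y) ^ 2`. For `g = 1` and the ordinary
  degree the condition is `deg f_i ≤ 12` if `p ≤ 3`, `deg f_i ≤ 6` if `p = 5`, `deg f_i ≤ 5` if `p = 7`,
  and `deg f_i ≤ 4` if `p > 7`.

Other examples of `IsTwist`:

* `w ^ n = f ^ s * h ^ t / g ^ (s + t)` for every `n`, where `s`, `t` are coprime and for some weights
  `a, b, c` of `x, y, r` the surface `f - r ^ t * g + r ^ (s + t) * h = 0` is of degree at most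
  `a + b + c` (`Helper9/TR`);
* `w ^ n = f(x, y)`, if for some weights `a`, `b` of `x`, `y` and all `k` prime to `n`,
  `k * deg f ≤ n * (a + b)` or `(n - k) * deg f ≤ n * (a + b)` (`Helper73/V7/Power.lean`);
* `F(x, y, w ^ n) = 0`, a surface of degree at most `a + b + 1 + ⌊n / 2⌋` in the weighted space
  `P(a, b, 1, 1)`, by the theorem of Miyaoka and Mori: for `x = X / s ^ a`, `y = Y / s ^ b` and
  `w ^ n = v * (1 - v) / s ^ n` the threefold is a hypersurface in `P(a, b, ⌊n / 2⌋, 1, 1)` with a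
  negative canonical class. The bound is the condition `h ^ {2, 0} * h ^ {0, 2} = 0` for all
  characters of order different from two. The theorem `double_power` is the case of polynomials `F`
  which are quadratic in `y`, with a proof in Lean. In the same way the bound in `additive` may be
  replaced by `a + b + c + 2 * c / P`;
* `n = 3`: the extension belongs to an automorphism of order three of a surface such that for one of
  its two characters `K_B + L` is not pseudo-effective (characteristic not `2, 3, 5`, by the minimal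
  model program; `L⁻¹` is the eigensheaf on a smooth model of `B` where the branch curve has normal
  crossings).

So `K / R` may be any tame abelian extension of exponent at most ten, branched along any plane curve,
for which no eigenspace of the second cohomology for a character of order different from two
contains forms of the types `(2, 0)` and `(0, 2)`; if there are such forms for a character of order
two, the conjecture has to be known for the double plane (for example if it is a K3 surface).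

`H i K` is the part of weight `i` of the cohomology in degree `i` of the generic point of a variety
with function field `K`. An eigenclass for a character of `Gal(K / R)` comes from the fixed field
`M` of its kernel, where it is an eigenclass for a faithful character. Let `C` be the curve
`u ^ n = v ^ a * (1 - v) ^ b` with its automorphisms `u ↦ ζ u` (in (2) the curve `u ^ p - u = s ^ 2`, or
`s ^ 3` if `p = 2`, with its automorphisms `u ↦ u + c`). For the eigenspace `E` of `H 2 M` and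
the eigenspace `E'` of `H 1 C` for the inverse character, `E ⊗ E'` comes from the threefold of (1),
`s = u / w` (of (2), `v = u - w`), which is uniruled; in (3) it is a double cover of a weighted
projective space, branched along a hypersurface of small degree, or a family of rational surfaces.
So `E ⊗ E'` comes from the first cohomology of a variety `D`. A Tate class in `E` gives an
equivariant homomorphism from `H 1 C` to `H 1 D`, which is algebraic by the theorems of Tate and
Faltings; its contraction over `C` is the class of a divisor, and this is a multiple of the Tate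
class. (The eigenspaces of `H 1 C` in (2) are not zero by the cohomology of the curves in (1): `C` is
also a curve of the form `s ^ n = v ^ a * (1 - v) ^ b`, and the automorphisms `u ↦ c * u` permute the
eigenvalues.)
-/

set_option autoImplicit false

namespace Pool.Agent.Results.MP_8abef2_ag.CyclicSurfaces

open IntermediateField MvPolynomial CategoryTheory Pool.Agent.Helper35.GE

/-- The equation `w ^ n = f₁(x, y) ^ e₁ * ⋯ * fᵣ(x, y) ^ eᵣ`, `n = [M : Ω(x, y)]`, `M = Ω(x, y, w)`,
`R ⊆ Ω(x, y)`, for a curve with the equation `F₁ * ⋯ * Fᵣ = 0` in the weighted plane `P(a, b, 1)`,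
where `Fᵢ(x, y, 1) = fᵢ` and `dᵢ = deg Fᵢ`. Either `n ≤ 6`, or `n ≤ 10` and `a = b = 1`, the curve is
arbitrary, and `h ^ {2, 0} * h ^ {0, 2} = 0` for all the characters of order different from one and
two (and for the character of order two if `n = 2`), if the curve has only nodes: the Hodge number
`h ^ {2, 0}` of the character `k` or `-k` is zero if `∑ dᵢ * (k * eᵢ % n) ≤ n * (a + b)` (if and only
if, for `a = b = 1`). Or `a = b = 1`, there are at most three components and the degree is at most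
four, or five and at most one `Fᵢ` is linear. -/
def IsCurve (Ω R M : Type) [Field Ω] [Field R] [Field M] [Algebra Ω M] [Algebra R M] : Prop :=
  ∃ (n a b r : ℕ) (d e : Fin r → ℕ) (f : Fin r → MvPolynomial (Fin 2) Ω) (x y w : M),
    (∀ r : R, algebraMap R M r ∈ adjoin Ω {x, y}) ∧ adjoin Ω {x, y, w} = ⊤ ∧
    Module.finrank (adjoin Ω {x, y}) M = n ∧
    (∀ i, ∀ m ∈ (f i).support, a * m 0 + b * m 1 ≤ d i) ∧ n ∣ ∑ i, d i * e i ∧
    ((0 < a + b ∧ n ≤ 6 ∨ a = 1 ∧ b = 1 ∧ n ≤ 10) ∧
        (∀ k < n, 2 * k ≠ n ∨ n = 2 → ∑ i, d i * (k * e i % n) ≤ n * (a + b) ∨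
          ∑ i, d i * ((n - k) * e i % n) ≤ n * (a + b)) ∨
      a = 1 ∧ b = 1 ∧ r ≤ 3 ∧
        (∑ i, d i ≤ 4 ∨ ∑ i, d i = 5 ∧ (Finset.univ.filter fun i => d i = 1).card ≤ 1)) ∧
    w ^ n = ∏ i, aeval ![x, y] (f i) ^ e i

/-- `M = B(w)`, `w ^ n ∈ B`, `n = [M : B]`, where `B = Ω(x, y, z)` is the function field of a surface
and contains `R`, and the threefold `v ^ a * (1 - v) ^ b = (s * w) ^ n` over `B` is uniruled. -/
def IsTwist (Ω R M : Type) [Field Ω] [Field R] [Field M] [Algebra Ω M] [Algebra R M] : Prop :=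
  ∃ (n a b : ℕ) (x y z w : M), IsAlgebraic (adjoin Ω {x, y}) z ∧
    (∀ r : R, algebraMap R M r ∈ adjoin Ω {x, y, z}) ∧ adjoin Ω {x, y, z, w} = ⊤ ∧
    Module.finrank (adjoin Ω {x, y, z}) M = n ∧ w ^ n ∈ adjoin Ω {x, y, z} ∧
    (a.gcd b).Coprime n ∧ ¬ n ∣ a ∧ ¬ n ∣ b ∧ ¬ n ∣ a + b ∧
    ∀ (N : Type) [Field N] [Algebra Ω N] (g : M →ₐ[Ω] N) (v s : N),
      Transcendental g.fieldRange v → v ^ a * (1 - v) ^ b = (s * g w) ^ n →
      Pool.Agent.Helper75.QC.Uniruled Ω (adjoin Ω {g x, g y, g z, v, s} : IntermediateField Ω N) 3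

/-- `p` is the characteristic, `M = B(w)`, `w ^ p - w ∈ B`, `p = [M : B]`, where `B = Ω(x, y, z)` is
the function field of a surface and contains `R`, and the threefold `v ^ p - v = s ^ m - (w ^ p - w)`
over `B` is uniruled, `m = 2` (`m = 3` if `p = 2`). -/
def IsWild (Ω R M : Type) [Field Ω] [Field R] [Field M] [Algebra Ω M] [Algebra R M] : Prop :=
  ∃ (p : ℕ) (x y z w : M), p.Prime ∧ (p : Ω) = 0 ∧ IsAlgebraic (adjoin Ω {x, y}) z ∧
    (∀ r : R, algebraMap R M r ∈ adjoin Ω {x, y, z}) ∧ adjoin Ω {x, y, z, w} = ⊤ ∧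
    Module.finrank (adjoin Ω {x, y, z}) M = p ∧ w ^ p - w ∈ adjoin Ω {x, y, z} ∧
    ∀ (N : Type) [Field N] [Algebra Ω N] (g : M →ₐ[Ω] N) (v s : N),
      Transcendental g.fieldRange v → v ^ p - v = s ^ (if p = 2 then 3 else 2) - g (w ^ p - w) →
      Pool.Agent.Helper75.QC.Uniruled Ω (adjoin Ω {g x, g y, g z, v, s} : IntermediateField Ω N) 3

/-- `K` is finitely generated and a finite abelian extension of a field `R`, and the surfaces with
the function fields `M`, where `M / R` is a cyclic subextension, satisfy the conjecture or one of the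
conditions above. -/
def IsCover {F Ω L : Type} [Field F] [Field Ω] [Algebra F Ω] [Field L] (T : GalCoh F Ω L)
    (K : Type) [Field K] [Algebra Ω K] : Prop :=
  (⊤ : IntermediateField Ω K).FG ∧ ∃ R : IntermediateField Ω K, FiniteDimensional R K ∧
    IsGalois R K ∧ (∀ g h : K ≃ₐ[R] K, g * h = h * g) ∧
    ∀ M : IntermediateField R K, IsCyclic (M ≃ₐ[R] M) →
      T.IsTate M ∨ IsTwist Ω R M ∨ IsWild Ω R M ∨ IsCurve Ω R M

theorem IsCurve.row {Ω R M : Type} [Field Ω] [IsAlgClosed Ω] [Field R] [Field M] [Algebra Ω R]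
    [Algebra Ω M] [Algebra R M] [IsScalarTower Ω R M] [FiniteDimensional R M] [IsGalois R M]
    (h : IsCurve Ω R M) :
    Pool.Agent.Helper75.QC.Uniruled Ω M 2 ∨ Pool.Agent.Helper35.V7.LstN Ω R M := by
  obtain ⟨n, a, b, r, d, e, f, x, y, w, hR, hM, rfl, hf, hdvd, h, hw⟩ := h
  have hdeg : a = 1 → b = 1 → ∀ i, (f i).totalDegree ≤ d i := by
    rintro rfl rfl i
    refine Finset.sup_le fun m hm => ?_
    have h1 := hf i m hm
    rw [one_mul, one_mul] at h1
    rw [Finsupp.sum_fintype _ _ (fun _ => rfl), Fin.sum_univ_two]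
    exact h1
  have hplane : ∀ h1 : a = 1, ∀ h2 : b = 1, _ → _ := fun h1 h2 h3 =>
    Pool.Agent.Helper48.V7.IsListed.row (Ω := Ω) (R := R) (M := M)
      ⟨x, y, w, hR, hM, Or.inl ⟨r, d, e, f, hdeg h1 h2, hdvd, h3, hw⟩⟩
  rcases h with ⟨⟨hab, hn⟩ | ⟨h1, h2, hn⟩, hnat⟩ | ⟨h1, h2, h3⟩
  · refine (Pool.Agent.Helper48.V9.IsWCurve.row (R := R) x y w hR hM
      ⟨a, b, r, d, e, f, hab, hn, hf, fun k hk hkn => hnat k hk ?_, hw⟩).imp id Or.inl
    by_contra hcon
    push Not at hcon
    obtain ⟨h1, h2⟩ := hcon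
    have h3 : k ∣ 1 := by
      rw [← hkn]
      exact Nat.dvd_gcd dvd_rfl ⟨2, by rw [← h1, mul_comm]⟩
    have h4 := Nat.dvd_one.1 h3
    omega
  · subst h1 h2
    refine hplane rfl rfl (Or.inl ⟨hn, fun k hk h3 => ?_⟩)
    have h4 := hnat k hk h3
    rwa [mul_comm 2]
  · exact hplane h1 h2 (Or.inr h3)

section Examples

variable {F Ω L : Type} [Field F] [Field Ω] [Algebra F Ω] [IsAlgClosed Ω] [Field L] [IsAlgClosed L]
  {T : GalCoh F Ω L} (hT : T.IsGalois) {K : Type} [Field K] [Algebra Ω K]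

omit [IsAlgClosed Ω] in
include hT in
/-- The covers with tame and wild twists of the first two types; uniruled surfaces satisfy the
conjecture. -/
theorem isCover_of (hK : (⊤ : IntermediateField Ω K).FG) (h : ∃ R : IntermediateField Ω K,
      FiniteDimensional R K ∧ IsGalois R K ∧ (∀ g h : K ≃ₐ[R] K, g * h = h * g) ∧
      ∀ M : IntermediateField R K, IsCyclic (M ≃ₐ[R] M) →
        Pool.Agent.Helper75.QC.Uniruled Ω M 2 ∨ T.IsTate M ∨ IsTwist Ω R M ∨ IsWild Ω R M) :
    IsCover T K := by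
  obtain ⟨R, h1, h2, h3, h4⟩ := h
  refine ⟨hK, R, h1, h2, h3, fun M hM => ?_⟩
  rcases h4 M hM with h | h | h | h
  · refine Or.inl (T.isTate_of_noTate hT ?_ fun U _ γ _ t _ => (T.toTheory hT).uniruled 2 M h t)
    exact Pool.Agent.Helper48.V9.fg_sub_alg (M.restrictScalars Ω) hK fun a =>
      Algebra.IsAlgebraic.isAlgebraic (R := M) a
  · exact Or.inl h
  · exact Or.inr (Or.inl h)
  · exact Or.inr (Or.inr (Or.inl h))

include hT in
/-- **Base change by `t = w ^ n`.** `K = Ω(x, y, w)`, `n = [K : Ω(x, y, w ^ n)]` is not zero in `Ω`,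
and `F(x, y, w ^ n) = 0` for a polynomial `F ≠ 0` of degree at most `a + b + c` for some weights
`a, b, 2 * c` of its variables. -/
theorem power (n : ℕ) (hn : (n : Ω) ≠ 0) (a b c : ℕ) (F : MvPolynomial (Fin 3) Ω) (x y w : K)
    (hK : adjoin Ω {x, y, w} = ⊤) (hd : Module.finrank (adjoin Ω {x, y, w ^ n}) K = n)
    (habc : 0 < a + b + c) (hF : F ≠ 0)
    (hdeg : ∀ m ∈ F.support, a * m 0 + b * m 1 + 2 * c * m 2 ≤ a + b + c)
    (h0 : aeval ![x, y, w ^ n] F = 0) : IsCover T K := by
  obtain ⟨R, h1, h2, h3, h4⟩ :=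
    Pool.Agent.Helper48.V9.power_rows hn a b c F x y w hK hd habc hF hdeg h0
  refine isCover_of hT (hK ▸ fg_adjoin_of_finite (Set.toFinite _)) ⟨R, h1, h2, h3, fun M _ =>
    (h4 M).imp id fun h => Or.inr (Or.inl (Pool.Agent.Helper73.V7.IsTwist.of_row3 h))⟩

include hT in
/-- **Elliptic surfaces.** `y ^ 2 + a₁ * x * y + a₃ * y = x ^ 3 + a₂ * x ^ 2 + a₄ * x + a₆`, where `aᵢ` is
a polynomial of degree at most `i / 2` in `w ^ n`, `K = Ω(x, y, w)`, and `n = [K : Ω(x, y, w ^ n)]` is
not zero in `Ω`. -/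
theorem elliptic_power (n : ℕ) (hn : (n : Ω) ≠ 0) (a₁ a₂ a₃ a₄ a₆ : Polynomial Ω)
    (h₁ : 2 * a₁.natDegree ≤ 1) (h₂ : 2 * a₂.natDegree ≤ 2) (h₃ : 2 * a₃.natDegree ≤ 3)
    (h₄ : 2 * a₄.natDegree ≤ 4) (h₆ : 2 * a₆.natDegree ≤ 6) (x y w : K)
    (hK : adjoin Ω {x, y, w} = ⊤) (hd : Module.finrank (adjoin Ω {x, y, w ^ n}) K = n)
    (h : y ^ 2 + Polynomial.aeval (w ^ n) a₁ * x * y + Polynomial.aeval (w ^ n) a₃ * y =
      x ^ 3 + Polynomial.aeval (w ^ n) a₂ * x ^ 2 + Polynomial.aeval (w ^ n) a₄ * x +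
        Polynomial.aeval (w ^ n) a₆) : IsCover T K := by
  obtain ⟨a, b, c, F, habc, hF, hdeg, h0⟩ :=
    Pool.Agent.Helper73.V7.elliptic_data n a₁ a₂ a₃ a₄ a₆ h₁ h₂ h₃ h₄ h₆ x y w h
  exact power hT n hn a b c F x y w hK hd habc hF hdeg h0

omit [IsAlgClosed Ω] in
include hT in
theorem isCover_of_rows {x y w : K} {n : ℕ} (hK : adjoin Ω {x, y, w} = ⊤)
    (h2 : ∀ m, n = 2 * m → T.IsTate (adjoin Ω {x, y, w ^ m} : IntermediateField Ω K))
    (h : ∃ R : IntermediateField Ω K, FiniteDimensional R K ∧ IsGalois R K ∧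
      (∀ g h : K ≃ₐ[R] K, g * h = h * g) ∧
      ∀ M : IntermediateField R K, Pool.Agent.Helper75.QC.Uniruled Ω M 2 ∨
        Pool.Agent.Helper35.V7.Row3 Ω R M ∨
        ∃ m, n = 2 * m ∧ M.restrictScalars Ω = adjoin Ω {x, y, w ^ m}) : IsCover T K := by
  obtain ⟨R, h3, h4, h5, h6⟩ := h
  refine isCover_of hT (hK ▸ fg_adjoin_of_finite (Set.toFinite _)) ⟨R, h3, h4, h5, fun M _ => ?_⟩
  rcases h6 M with h | h | ⟨m, hm, hM⟩
  · exact Or.inl h
  · exact Or.inr (Or.inr (Or.inl (Pool.Agent.Helper73.V7.IsTwist.of_row3 h)))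
  · have h7 := h2 m hm
    rw [← hM] at h7
    exact Or.inr (Or.inl h7)

include hT in
/-- **Double planes, base change by `t = w ^ n`.** `y ^ 2 = G(x, w ^ n) * y + F(x, w ^ n)`,
`K = Ω(x, y, w)`, `n = [K : Ω(x, y, w ^ n)]` is not zero in `Ω`, and for the weights `a`, `1` of
`x`, `w` the degrees of `G`, `F` are at most `S`, `2 * S`, `S = a + 1 + ⌊n / 2⌋`. If `n = 2 * m`, then
the conjecture is true for `Ω(x, y, w ^ m)`; this is the function field of a K3 surface, if its
singularities are rational double points and the degree of the surface is `2 * S`. -/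
theorem double_power (n : ℕ) (hn : (n : Ω) ≠ 0) (a : ℕ) (F G : MvPolynomial (Fin 2) Ω)
    (x y w : K) (hK : adjoin Ω {x, y, w} = ⊤)
    (hd : Module.finrank (adjoin Ω {x, y, w ^ n}) K = n)
    (hF : ∀ m ∈ F.support, a * m 0 + n * m 1 ≤ 2 * (a + 1 + n / 2))
    (hG : ∀ m ∈ G.support, a * m 0 + n * m 1 ≤ a + 1 + n / 2)
    (hy : y ^ 2 = aeval ![x, w ^ n] G * y + aeval ![x, w ^ n] F)
    (h2 : ∀ m, n = 2 * m → T.IsTate (adjoin Ω {x, y, w ^ m} : IntermediateField Ω K)) :
    IsCover T K :=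
  isCover_of_rows hT hK h2 (Pool.Agent.Helper48.V10.dbl_rows' hn a F G x y w hK hd hF hG hy)

include hT in
/-- **Elliptic surfaces.** The degree of `aᵢ` is at most `i * (1 + ⌊n / 2⌋) / n`. If `n = 2 * m`, then
the conjecture is true for `Ω(x, y, w ^ m)`, the function field of a K3 surface or a uniruled
surface. -/
theorem elliptic_power_K3 (n : ℕ) (hn : (n : Ω) ≠ 0) (a₁ a₂ a₃ a₄ a₆ : Polynomial Ω)
    (h₁ : n * a₁.natDegree ≤ 1 + n / 2) (h₂ : n * a₂.natDegree ≤ 2 * (1 + n / 2))
    (h₃ : n * a₃.natDegree ≤ 3 * (1 + n / 2)) (h₄ : n * a₄.natDegree ≤ 4 * (1 + n / 2))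
    (h₆ : n * a₆.natDegree ≤ 6 * (1 + n / 2)) (x y w : K) (hK : adjoin Ω {x, y, w} = ⊤)
    (hd : Module.finrank (adjoin Ω {x, y, w ^ n}) K = n)
    (h : y ^ 2 + Polynomial.aeval (w ^ n) a₁ * x * y + Polynomial.aeval (w ^ n) a₃ * y =
      x ^ 3 + Polynomial.aeval (w ^ n) a₂ * x ^ 2 + Polynomial.aeval (w ^ n) a₄ * x +
        Polynomial.aeval (w ^ n) a₆)
    (h2 : ∀ m, n = 2 * m → T.IsTate (adjoin Ω {x, y, w ^ m} : IntermediateField Ω K)) :
    IsCover T K :=
  isCover_of_rows hT hK h2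
    (Pool.Agent.Helper48.V10.ell_rows hn a₁ a₂ a₃ a₄ a₆ h₁ h₂ h₃ h₄ h₆ x y w hK hd h)

variable {p : ℕ} [hp : Fact p.Prime] [CharP Ω p]

omit [IsAlgClosed Ω] in
theorem isWild_of_row {R M : Type} [Field R] [Field M] [Algebra Ω M]
    [Algebra R M] (h : Pool.Agent.Helper73.WT.RowW p Ω R M) : IsWild Ω R M := by
  obtain ⟨x, y, z, w, h⟩ := (Pool.Agent.Helper48.V9.rowF_iff hp.out.one_lt).2 h
  exact ⟨p, x, y, z, w, hp.out, CharP.cast_eq_zero Ω p, h⟩

omit [IsAlgClosed Ω] in
include hT in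
/-- The covers with wild twists only. -/
theorem isCover_wild (hK : (⊤ : IntermediateField Ω K).FG)
    (h : Pool.Agent.Helper73.SS.IsCoverW p Ω K) : IsCover T K := by
  obtain ⟨R, h1, h2, h3, h4⟩ := h
  exact isCover_of hT hK ⟨R, h1, h2, h3, fun M hM =>
    (h4 M hM).imp id fun h => Or.inr (Or.inr (isWild_of_row h))⟩

include hT in
/-- **Base change by an additive polynomial.** `K = Ω(x, y, w)` and `F(x, y, u) = 0`, where
`u = l 0 * w + l 1 * w ^ p + ⋯ + l e * w ^ p ^ e`, `l 0 ≠ 0`, `l e ≠ 0`, and `F ≠ 0` is a polynomial of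
degree at most `a + b + c` for some weights `a, b, 2 * c` of its variables. -/
theorem additive (e : ℕ) (l : ℕ → Ω) (hl0 : l 0 ≠ 0) (hle : l e ≠ 0) (a b c : ℕ)
    (F : MvPolynomial (Fin 3) Ω) (x y w u : K) (hK : adjoin Ω {x, y, w} = ⊤)
    (hu : u = ∑ i ∈ Finset.range (e + 1), algebraMap Ω K (l i) * w ^ p ^ i)
    (habc : 0 < a + b + c) (hF : F ≠ 0)
    (hd : ∀ m ∈ F.support, a * m 0 + b * m 1 + 2 * c * m 2 ≤ a + b + c)
    (h0 : aeval ![x, y, u] F = 0) : IsCover T K := by
  let _ : Algebra (ZMod p) Ω := ZMod.algebra Ω p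
  rw [hu] at h0
  exact isCover_wild hT (p := p) (hK ▸ fg_adjoin_of_finite (Set.toFinite _))
    (Pool.Agent.Helper73.SS.isCoverW_add hl0 hle a b c F x y w hK habc hF hd h0)

include hT in
/-- **Double planes, base change by an additive polynomial.** `y ^ 2 = G(x, u) * y + F(x, u)`,
`K = Ω(x, y, w)`, `u = l 0 * w + l 1 * w ^ p + ⋯ + l e * w ^ p ^ e`, `l 0 ≠ 0`, `l e ≠ 0`, and for the
weights `a`, `d` of `x`, `u` the degrees of `G`, `F` are at most `S`, `2 * S`, where
`S = a + ⌊d / 2⌋ + ⌊d / P⌋`, `P = max p 3`. -/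
theorem double_additive (e : ℕ) (l : ℕ → Ω) (hl0 : l 0 ≠ 0) (hle : l e ≠ 0) (a d : ℕ)
    (F G : MvPolynomial (Fin 2) Ω) (x y w u : K) (hK : adjoin Ω {x, y, w} = ⊤)
    (hu : u = ∑ i ∈ Finset.range (e + 1), algebraMap Ω K (l i) * w ^ p ^ i)
    (hpos : 0 < a + d / 2 + d / max p 3)
    (hF : ∀ m ∈ F.support, a * m 0 + d * m 1 ≤ 2 * (a + d / 2 + d / max p 3))
    (hG : ∀ m ∈ G.support, a * m 0 + d * m 1 ≤ a + d / 2 + d / max p 3)
    (hy : y ^ 2 = aeval ![x, u] G * y + aeval ![x, u] F) : IsCover T K := by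
  let _ : Algebra (ZMod p) Ω := ZMod.algebra Ω p
  rw [hu] at hy
  exact isCover_wild hT (p := p) (hK ▸ fg_adjoin_of_finite (Set.toFinite _))
    (Pool.Agent.Helper48.V10.isCoverW_dbl2 hl0 hle F G x y w hK hpos hF hG hy)

include hT in
/-- **Elliptic surfaces.** `y ^ 2 + a₁ * x * y + a₃ * y = x ^ 3 + a₂ * x ^ 2 + a₄ * x + a₆`, where `aᵢ` is
a polynomial of degree at most `i * (P + 2) / (2 * P)`, `P = max p 3`, in
`u = l 0 * w + l 1 * w ^ p + ⋯ + l e * w ^ p ^ e`, `l 0 ≠ 0`, `l e ≠ 0`. The bound is `5 * i / 6` if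
`p ≤ 3`, and `7 * i / 10` if `p = 5`. -/
theorem elliptic_additive (e : ℕ) (l : ℕ → Ω) (hl0 : l 0 ≠ 0) (hle : l e ≠ 0)
    (a₁ a₂ a₃ a₄ a₆ : Polynomial Ω) (h₁ : 2 * max p 3 * a₁.natDegree ≤ max p 3 + 2)
    (h₂ : 2 * max p 3 * a₂.natDegree ≤ 2 * (max p 3 + 2))
    (h₃ : 2 * max p 3 * a₃.natDegree ≤ 3 * (max p 3 + 2))
    (h₄ : 2 * max p 3 * a₄.natDegree ≤ 4 * (max p 3 + 2))
    (h₆ : 2 * max p 3 * a₆.natDegree ≤ 6 * (max p 3 + 2)) (x y w u : K)
    (hK : adjoin Ω {x, y, w} = ⊤)
    (hu : u = ∑ i ∈ Finset.range (e + 1), algebraMap Ω K (l i) * w ^ p ^ i)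
    (h : y ^ 2 + Polynomial.aeval u a₁ * x * y + Polynomial.aeval u a₃ * y =
      x ^ 3 + Polynomial.aeval u a₂ * x ^ 2 + Polynomial.aeval u a₄ * x +
        Polynomial.aeval u a₆) : IsCover T K := by
  let _ : Algebra (ZMod p) Ω := ZMod.algebra Ω p
  exact isCover_wild hT (p := p) (hK ▸ fg_adjoin_of_finite (Set.toFinite _))
    (Pool.Agent.Helper48.V10.isCoverW_ell hl0 hle a₁ a₂ a₃ a₄ a₆ h₁ h₂ h₃ h₄ h₆ x y w u hK hu h)

include hT in
/-- **Covers of the plane.** `K` is generated by `x`, `y` and `w_1, …, w_r` with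
`w_i ^ p - w_i = f_i(x, y) / g(x, y) ^ 2`, and for the weights `a`, `b` of `x`, `y` and for
`P = max p 3`, `deg g ≤ e ≤ a + b` and `deg f_i ≤ d`, `(P - 2) * d + 4 * e ≤ 2 * P * (a + b)`. -/
theorem plane {a b d e r : ℕ} (f : Fin r → MvPolynomial (Fin 2) Ω)
    (g : MvPolynomial (Fin 2) Ω) (x y : K) (w : Fin r → K) (hab : 0 < a + b)
    (hf : ∀ i, ∀ m ∈ (f i).support, a * m 0 + b * m 1 ≤ d)
    (hg : ∀ m ∈ g.support, a * m 0 + b * m 1 ≤ e) (he : e ≤ a + b)
    (hd : (max p 3 - 2) * d + 4 * e ≤ 2 * max p 3 * (a + b))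
    (hxy : AlgebraicIndependent Ω ![x, y]) (hK : adjoin Ω ({x, y} ∪ Set.range w) = ⊤)
    (hg0 : aeval ![x, y] g ≠ 0)
    (hw : ∀ i, (w i ^ p - w i) * aeval ![x, y] g ^ 2 = aeval ![x, y] (f i)) : IsCover T K := by
  let _ : Algebra (ZMod p) Ω := ZMod.algebra Ω p
  exact isCover_wild hT (p := p) (hK ▸ fg_adjoin_of_finite (Set.toFinite _))
    (Pool.Agent.Helper73.SS.isCoverW_plane hab hf hg he hd hxy hK hg0 hw)

include hT in
/-- The same for `L(w) = f(x, y) / g(x, y) ^ 2`, `L(w) = l 0 * w + l 1 * w ^ p + ⋯ + l j * w ^ p ^ j`. -/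
theorem plane_additive {a b d e j : ℕ} (l : ℕ → Ω) (hl0 : l 0 ≠ 0) (hlj : l j ≠ 0) (hj : 0 < j)
    (f g : MvPolynomial (Fin 2) Ω) (x y w : K) (hab : 0 < a + b)
    (hf : ∀ m ∈ f.support, a * m 0 + b * m 1 ≤ d) (hg : ∀ m ∈ g.support, a * m 0 + b * m 1 ≤ e)
    (he : e ≤ a + b) (hd : (max p 3 - 2) * d + 4 * e ≤ 2 * max p 3 * (a + b))
    (hK : adjoin Ω {x, y, w} = ⊤) (hg0 : aeval ![x, y] g ≠ 0)
    (hw : (∑ i ∈ Finset.range (j + 1), algebraMap Ω K (l i) * w ^ p ^ i) * aeval ![x, y] g ^ 2 =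
      aeval ![x, y] f) : IsCover T K := by
  let _ : Algebra (ZMod p) Ω := ZMod.algebra Ω p
  exact isCover_wild hT (p := p) (hK ▸ fg_adjoin_of_finite (Set.toFinite _))
    (Pool.Agent.Helper73.SS.isCoverW_plane_add hl0 hlj hj hab hf hg he hd hK hg0 hw)

end Examples

/-- **Elliptic surfaces.** `K = Ω(x, y, w)` and
`y ^ 2 + a₁ * x * y + a₃ * y = x ^ 3 + a₂ * x ^ 2 + a₄ * x + a₆`, where `aᵢ` is a polynomial of degree at
most `i / 2` in `w ^ n`, and `n = [K : Ω(x, y, w ^ n)]` is not zero in `Ω`. -/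
def IsElliptic (Ω K : Type) [Field Ω] [Field K] [Algebra Ω K] : Prop :=
  ∃ (n : ℕ) (a₁ a₂ a₃ a₄ a₆ : Polynomial Ω) (x y w : K), (n : Ω) ≠ 0 ∧
    2 * a₁.natDegree ≤ 1 ∧ 2 * a₂.natDegree ≤ 2 ∧ 2 * a₃.natDegree ≤ 3 ∧ 2 * a₄.natDegree ≤ 4 ∧
    2 * a₆.natDegree ≤ 6 ∧ adjoin Ω {x, y, w} = ⊤ ∧
    Module.finrank (adjoin Ω {x, y, w ^ n}) K = n ∧
    y ^ 2 + Polynomial.aeval (w ^ n) a₁ * x * y + Polynomial.aeval (w ^ n) a₃ * y =
      x ^ 3 + Polynomial.aeval (w ^ n) a₂ * x ^ 2 + Polynomial.aeval (w ^ n) a₄ * x +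
        Polynomial.aeval (w ^ n) a₆

/-- The conjecture holds for the surfaces with function field `K₀` over `Ω`, if `K₀` is contained in
`K`. -/
theorem result {F Ω L : Type} [Field F] [Field Ω] [Algebra F Ω] [Algebra.IsAlgebraic F Ω]
    [IsAlgClosed Ω] [Field L] [CharZero L] [IsAlgClosed L] (T : GalCoh F Ω L) (hT : T.IsGalois)
    {K K₀ : Type} [Field K] [Algebra Ω K] [Field K₀] [Algebra Ω K₀] (hK : IsElliptic Ω K ∨ IsCover T K)
    (j : K₀ →ₐ[Ω] K) (hj : ∀ a : K, IsAlgebraic j.fieldRange a) : T.IsTate K₀ := by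
  replace hK : IsCover T K := by
    rcases hK with ⟨n, a₁, a₂, a₃, a₄, a₆, x, y, w, hn, h₁, h₂, h₃, h₄, h₆, hxyw, hd, h⟩ | hK
    · exact elliptic_power hT n hn a₁ a₂ a₃ a₄ a₆ h₁ h₂ h₃ h₄ h₆ x y w hxyw hd h
    · exact hK
  obtain ⟨hfg, R, hfd, hgal, hab, hM⟩ := hK
  have hR : (⊤ : IntermediateField Ω R).FG :=
    Pool.Agent.Helper48.V9.fg_sub_alg R hfg fun a => Algebra.IsAlgebraic.isAlgebraic a
  obtain ⟨hG, -⟩ := Pool.Agent.Helper48.V9.noTate_rows9 (T.toTheory hT) R hR hab (by
    intro M hc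
    have hG : IsGalois R M := Pool.Agent.Helper35.WC.isGalois_of_comm hab M
    rcases hM M hc with h | h | ⟨p, x, y, z, w, hp, hp0, h⟩ | h
    · exact Or.inl (h.noTate hT)
    · exact Or.inr (Or.inl (Pool.Agent.Helper73.V7.IsTwist.row h))
    · exact Or.inr (Or.inr ⟨p, hp, hp0,
        (Pool.Agent.Helper48.V9.rowF_iff hp.one_lt).1 ⟨x, y, z, w, h⟩⟩)
    · rcases h.row with h | h
      · exact Or.inl fun U _ γ _ t _ => (T.toTheory hT).uniruled 2 M h t
      · exact (Pool.Agent.Helper35.V7.of_lstN _ h).imp id Or.inl)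
  have hfg₀ := Pool.Agent.Helper48.V9.fg_of_hom hfg j hj
  exact T.isTate_of_noTate hT hfg₀ (hG.of_hom _ hfg hfg₀ j hj)

end Pool.Agent.Results.MP_8abef2_ag.CyclicSurfaces
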