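import Pool.Agent.Helper70.CC.Main

/-!
# The generalized Tate conjecture for complex multiplication by cyclotomic fields

`Φ` is the Frobenius, over a finite field `F` with `q` elements, on the first cohomology `V` (with
coefficients extended to `ℚ̄_ℓ ≅ ℂ`) of an abelian variety `A` that is, over the algebraic
closure, isogenous to a product of reductions of abelian varieties with complex multiplication by
`ℚ(ζ_m)` or a subfield (and `F` is so large that `m ∣ q - 1`). `Λⁱ V` is the `i`-th cohomology
of `A`. No condition on the CM types is imposed: the theorem says that they are the CM types of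
factors of Jacobians of Fermat curves, and that all the relations between these types which are needed for the
generalized Tate conjecture are consequences of three kinds of geometric relations (isogenies,
duality, and the geometry of Fermat surfaces).
-/

set_option autoImplicit false

namespace Pool.Agent.Results.MP_8abef2_ag.CyclotomicCM

open Pool.Agent.Helper70.CC Pool.Agent.Helper71.AA

/-- **The generalized Tate conjecture for CM by cyclotomic fields.** Let `m` be `3`, …, `10`, `12`,
`14`, `15`, `16`, `18`, `20`, `22`, `24`, `30`, `36` or `42` and let `F` be a finite field with `q`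
elements, `m ∣ q - 1`. Let `Φ` be a semisimple endomorphism of a finite-dimensional complex
vector space `V` whose eigenvalues are CM numbers for `m` and `F`. Then, for `2ν ≤ i`, the Galois
coniveau of level `ν` of `Λⁱ V` is the Fermat coniveau. -/
theorem result {m : ℕ}
    (hm : m ∈ [3, 4, 5, 6, 7, 8, 9, 10, 12, 14, 15, 16, 18, 20, 22, 24, 30, 36, 42])
    {F : Type} [Field F] [Fintype F] (hF : m ∣ Fintype.card F - 1)
    {V : Type} [AddCommGroup V] [Module ℂ V] [FiniteDimensional ℂ V] (Φ : Module.End ℂ V)
    (hΦ : Φ.IsSemisimple) (hcm : ∀ α : ℂ, Φ.HasEigenvalue α → IsCM m F α) (i ν : ℕ)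
    (hν : 2 * ν ≤ i) :
    galoisConiveau (Fintype.card F) Φ i ν = fermatConiveau m F Φ i ν :=
  main hm hF Φ hΦ hcm i ν hν

end Pool.Agent.Results.MP_8abef2_ag.CyclotomicCM
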