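import Pool.Agent.Helper71.AA.Exact

/-!
# The generalized Tate conjecture for all powers of abelian varieties over finite fields: the exact
criterion for divisors to suffice, and it holds for almost all isogeny classes

`IsWeil q g P`: the `q`-Weil polynomials of degree `2g` (among them the characteristic polynomials
of Frobenius of the abelian varieties of dimension `g` over `𝔽_q`, one for each isogeny class).
`DivisorsSuffice q P`: for every semisimple `F` on `V` with characteristic polynomial `P` the
Galois coniveau filtration of `Λⁱ(Vⁿ)`, the cohomology of `Aⁿ`, is generated by divisor classes.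
-/

set_option autoImplicit false

namespace Pool.Agent.Results.MP_8abef2_ag.IsogenyClasses

open Polynomial Pool.Agent.Helper71.AA

/-- **Divisors and the Galois coniveau of powers of abelian varieties over finite fields.**  For
every `q`-Weil polynomial the Galois coniveau of all powers is generated by divisor classes if and
only if the set condition `IsCovered` holds.  For every dimension `g` there is a constant `K` such
that for all prime powers `q` the number of `q`-Weil polynomials `P` of degree `2g` which are
ordinary or satisfy `q ∣ a_g ^ 2` (this contains all characteristic polynomials of Frobenius of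
abelian varieties) and which do not satisfy the set condition is at most `K q ^ (-1/7)` times the
number of the ordinary isogeny classes. -/
theorem result (g : ℕ) (hg : 0 < g) : ∃ K : ℝ, ∀ q : ℕ, IsPrimePow q →
    (∀ P : ℤ[X], IsWeil q g P → (DivisorsSuffice q P ↔ IsCovered q P)) ∧
    ({P : ℤ[X] | IsWeil q g P ∧ (IsCoprime (P.coeff g) (q : ℤ) ∨ (q : ℤ) ∣ P.coeff g ^ 2) ∧
      ¬ IsCovered q P}.ncard : ℝ) ≤
      K * (q : ℝ) ^ (-(1 / 7) : ℝ) * ({P : ℤ[X] | IsOrdinary q g P}.ncard : ℝ) := by
  obtain ⟨K, hK⟩ := almost_all g hg
  refine ⟨K, fun q hq => ⟨fun P hP => suffice_iff hq.two_le hP, ?_⟩⟩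
  have h1 : {P : ℤ[X] | IsWeil q g P ∧
      (IsCoprime (P.coeff g) (q : ℤ) ∨ (q : ℤ) ∣ P.coeff g ^ 2) ∧ ¬ IsCovered q P} =
      {P : ℤ[X] | IsWeil q g P ∧
      (IsCoprime (P.coeff g) (q : ℤ) ∨ (q : ℤ) ∣ P.coeff g ^ 2) ∧ ¬ DivisorsSuffice q P} := by
    ext P
    refine and_congr_right fun hP => and_congr_right fun _ => ?_
    rw [suffice_iff hq.two_le hP]
  rw [h1]
  exact hK q hq

end Pool.Agent.Results.MP_8abef2_ag.IsogenyClasses
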