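import Pool.Agent.Helper48.OF.Main

/-!
# The generalized Tate conjecture for products of ordinary abelian varieties over finite fields

`P k` is the characteristic polynomial of Frobenius of an ordinary abelian variety `B k` over `𝔽_q`,
of dimension at most three or such that divisors suffice for its powers. `V` with `F` is the first
cohomology of an abelian variety `A` isogenous to a product of powers of the `B k` and of a
supersingular abelian variety; `Λ(V)` is the cohomology of `A`.
-/

set_option autoImplicit false

namespace Pool.Agent.Results.MP_8abef2_ag.OrdinaryProducts

open Polynomial Pool.Agent.Helper71.AA Pool.Agent.Helper48.OF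

/-- **For products of ordinary abelian varieties over a finite field, each of dimension at most three
or with divisors sufficing for its powers, the Galois coniveau is generated by divisor classes and
by the elliptic classes in `H³`.** Let `P₁, …, P_r` be ordinary `q`-Weil polynomials which are
independent over `q` (for example with linearly disjoint splitting fields), each of degree at most
`6` or with the Galois coniveau of all powers generated by divisor classes. There are integers
`t₁, …, t_r`, `t_k² ≤ 4q`, such that for every semisimple `F` on a finite dimensional `V` all of whose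
eigenvalues are supersingular or roots of some `P_k`, and all `i`, `ν` with `2ν ≤ i`, the Galois
coniveau `N^ν` of `Λⁱ(V)` is the span of the products `x₁ ⋯ x_ν w` in `Λⁱ(V)`, each `x_k` a divisor
class or in the kernel of `F² - t_j q F + q³` on `Λ³(V)` for some `j`. -/
theorem result (q r : ℕ) (hq : IsPrimePow q) (g : Fin r → ℕ) (P : Fin r → ℤ[X])
    (hP : ∀ k, IsOrdinary q (g k) (P k)) (hg : ∀ k, g k ≤ 3 ∨ DivisorsSuffice q (P k))
    (hI : Independent q P) :
    ∃ t : Fin r → ℤ, (∀ k, t k ^ 2 ≤ 4 * (q : ℤ)) ∧
      ∀ (V : Type) [AddCommGroup V] [Module ℂ V] [FiniteDimensional ℂ V] (F : Module.End ℂ V),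
      F.IsSemisimple → (∀ β : ℂ, F.HasEigenvalue β → (∃ k, aeval β (P k) = 0) ∨ Ss q β) →
      ∀ i ν : ℕ, 2 * ν ≤ i → galoisConiveau q F i ν = ellipticConiveau q F t i ν :=
  main q r hq g P hP hg hI

end Pool.Agent.Results.MP_8abef2_ag.OrdinaryProducts
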